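import Pool.Agent.G02.Stmts

/-!
# G02, row TRA: recipe A, conclusions
-/

set_option autoImplicit false

namespace Pool.Agent.G02.H82

open Pool.Agent.G02 Pool.Agent.NJ

theorem vodd1 {p : ℕ} (hp : p.Prime) {c : ℤ} (hc : ¬ (p : ℤ) ∣ c) :
    padicValInt p (p * c) = 1 := by
  have : Fact p.Prime := ⟨hp⟩
  have hp0 : (p : ℤ) ≠ 0 := by exact_mod_cast hp.ne_zero
  have hc0 : c ≠ 0 := by rintro rfl; exact hc (dvd_zero _)
  rw [padicValInt.mul hp0 hc0, padicValInt.self hp.one_lt, padicValInt.eq_zero_of_not_dvd hc]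

theorem vodd3 {p : ℕ} (hp : p.Prime) {c : ℤ} (hc : ¬ (p : ℤ) ∣ c) :
    padicValInt p ((p : ℤ) ^ 3 * c) = 3 := by
  have : Fact p.Prime := ⟨hp⟩
  have hp0 : (p : ℤ) ≠ 0 := by exact_mod_cast hp.ne_zero
  have hc0 : c ≠ 0 := by rintro rfl; exact hc (dvd_zero _)
  have e : (p : ℤ) ^ 3 * c = p * (p * (p * c)) := by ring
  rw [e, padicValInt.mul hp0 (mul_ne_zero hp0 (mul_ne_zero hp0 hc0)),
    padicValInt.mul hp0 (mul_ne_zero hp0 hc0), vodd1 hp hc, padicValInt.self hp.one_lt]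

/-- The general scheme: both isogenous curves have only the trivial class prime to `p`. -/
theorem core (hN : NrmStmt) (hC : CriStmt) (a b a' b' : ℤ) (p : ℕ) (hp : p.Prime)
    (hb : Odd (padicValInt p b)) (hb' : Odd (padicValInt p b'))
    (ea : a' = -2 * a) (eb : b' = a ^ 2 - 4 * b) (hD : Dbl a b)
    (h1 : ∀ d M e N B : ℤ, Qt a b d M e N B → ¬ (p : ℤ) ∣ d → d = 1)
    (h2 : ∀ d M e N B : ℤ, Qt a' b' d M e N B → ¬ (p : ℤ) ∣ d → d = 1) :
    Tr (a : ℚ) (b : ℚ) := by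
  have hb0 : b ≠ 0 := by
    rintro rfl
    simp at hb
  have hb0' : b' ≠ 0 := by
    rintro rfl
    simp at hb'
  have c1 : Cl (a : ℚ) (b : ℚ) {1} := hN a b p {1} hp hb (fun d M e N B h hd => by
    rw [h1 d M e N B h hd]; simp)
  have c2 : Cl (a' : ℚ) (b' : ℚ) {1} := hN a' b' p {1} hp hb' (fun d M e N B h hd => by
    rw [h2 d M e N B h hd]; simp)
  have ea' : (a' : ℚ) = -2 * (a : ℚ) := by rw [ea]; push_cast; ring
  have eb' : (b' : ℚ) = (a : ℚ) ^ 2 - 4 * b := by rw [eb]; push_cast; ring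
  rw [ea', eb'] at c2
  exact hC a b hb0 (by rw [← eb]; exact hb0') hD c1 c2

theorem mod4 {m : ℤ} (hm : Odd m) : (2 * m) % 4 = 2 := by
  obtain ⟨t, rfl⟩ := hm
  omega

theorem mod16 {m : ℤ} (hm : Odd m) : (8 * m) % 16 = 8 := by
  obtain ⟨t, rfl⟩ := hm
  omega

theorem tra (hN : NrmStmt) (hC : CriStmt) (hT : TwvStmt) (hV1 : Va1Stmt) (hV2 : Va2Stmt)
    (hU1 : Ua1Stmt) (hU2 : Ua2Stmt) (hS1 : Sc1Stmt) (hS2 : Sc2Stmt) (hR : RlaStmt) : TraStmt := by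
  intro k p q r _ hA
  have : Fact p.Prime := ⟨hA.pp⟩
  have : Fact r.Prime := ⟨hA.pr⟩
  obtain ⟨hr8, s, hs⟩ := hR k p q r hA
  have hp := hA.pp
  have hpZ : Prime (p : ℤ) := Nat.prime_iff_prime_int.mp hp
  have hmp := hA.mp
  have hmq := hA.mq
  have hrr := hA.hr
  have oddp : Odd (p : ℤ) := by
    rw [Int.odd_iff]; omega
  have oddq : Odd (q : ℤ) := by
    rw [Int.odd_iff]; omega
  have oddr : Odd (r : ℤ) := by
    rw [Int.odd_iff]; omega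
  have np2 : ¬ (p : ℤ) ∣ 2 := by
    intro h
    have h' : p ∣ 2 := by exact_mod_cast h
    have := Nat.le_of_dvd (by norm_num) h'
    omega
  have npq : ¬ (p : ℤ) ∣ (q : ℤ) := by
    intro h
    have h' : p ∣ q := by exact_mod_cast h
    exact hs.npq ((Nat.prime_dvd_prime_iff_eq hp hA.pq).mp h')
  have npr : ¬ (p : ℤ) ∣ (r : ℤ) := by
    intro h
    have h' : p ∣ r := by exact_mod_cast h
    exact hs.npr ((Nat.prime_dvd_prime_iff_eq hp hA.pr).mp h')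
  have npk : ¬ (p : ℤ) ∣ k := hs.kp
  have nmul : ∀ x y : ℤ, ¬ (p : ℤ) ∣ x → ¬ (p : ℤ) ∣ y → ¬ (p : ℤ) ∣ x * y := by
    intro x y hx hy h
    rcases hpZ.dvd_or_dvd h with h | h
    · exact hx h
    · exact hy h
  have npow : ∀ (x : ℤ) (n : ℕ), ¬ (p : ℤ) ∣ x → ¬ (p : ℤ) ∣ x ^ n := by
    intro x n hx h
    exact hx (hpZ.dvd_of_dvd_pow h)
  have nneg : ∀ x : ℤ, ¬ (p : ℤ) ∣ x → ¬ (p : ℤ) ∣ -x := by
    intro x hx h
    exact hx ((dvd_neg).mp h)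
  have np4 : ¬ (p : ℤ) ∣ 4 := by
    have := npow 2 2 np2
    norm_num at this; exact this
  have np8 : ¬ (p : ℤ) ∣ 8 := by
    have := npow 2 3 np2
    norm_num at this; exact this
  have np16 : ¬ (p : ℤ) ∣ 16 := by
    have := npow 2 4 np2
    norm_num at this; exact this
  refine ⟨fun hk hkq => ?_, fun hk => ?_, fun hk => ?_⟩
  · refine core hN hC _ _ (-(4 * k * p * q)) (-(4 * k ^ 2 * p * q ^ 2 * r)) p hp ?_ ?_ ?_ ?_ ?_
      (hV1 k p q r hA) (hV2 k p q r hA hk hkq)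
    · have e : (2 * k ^ 2 * p * q ^ 3 : ℤ) = p * (2 * k ^ 2 * q ^ 3) := by ring
      rw [e, vodd1 hp (nmul _ _ (nmul _ _ np2 (npow _ _ npk)) (npow _ _ npq))]
      decide
    · have e : (-(4 * k ^ 2 * p * q ^ 2 * r) : ℤ) = p * (-(4 * k ^ 2 * q ^ 2 * r)) := by ring
      rw [e, vodd1 hp (nneg _ (nmul _ _ (nmul _ _ (nmul _ _ np4 (npow _ _ npk)) (npow _ _ npq))
        npr))]
      decide
    · ring
    · rw [hrr]; ring
    · apply hT
      by_cases h2 : (2 : ℤ) ∣ k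
      · right
        obtain ⟨k1, rfl⟩ := h2
        have ok1 : Odd k1 := by
          rw [← Int.not_even_iff_odd]
          rintro ⟨t, rfl⟩
          have := hA.sqf 2 ⟨t, by ring⟩
          norm_num [Int.isUnit_iff] at this
        refine ⟨?_, ⟨k1 * p * q, by ring⟩⟩
        have e : (2 * (2 * k1) ^ 2 * p * q ^ 3 : ℤ) = 8 * (k1 ^ 2 * p * q ^ 3) := by ring
        rw [e]
        exact mod16 (((ok1.pow).mul oddp).mul oddq.pow)
      · left
        have ok : Odd k := by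
          rw [Int.odd_iff]; omega
        have e : (2 * k ^ 2 * p * q ^ 3 : ℤ) = 2 * (k ^ 2 * p * q ^ 3) := by ring
        rw [e]
        exact mod4 (((ok.pow).mul oddp).mul oddq.pow)
  · refine core hN hC _ _ (-(8 * k * p ^ 2)) (-(16 * k ^ 2 * p ^ 3 * r)) p hp ?_ ?_ ?_ ?_ ?_
      (hU1 k p q r hA) (hU2 k p q r hA hk)
    · have e : (8 * k ^ 2 * p ^ 3 * q : ℤ) = (p : ℤ) ^ 3 * (8 * k ^ 2 * q) := by ring
      rw [e, vodd3 hp (nmul _ _ (nmul _ _ np8 (npow _ _ npk)) npq)]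
      decide
    · have e : (-(16 * k ^ 2 * p ^ 3 * r) : ℤ) = (p : ℤ) ^ 3 * (-(16 * k ^ 2 * r)) := by ring
      rw [e, vodd3 hp (nneg _ (nmul _ _ (nmul _ _ np16 (npow _ _ npk)) npr))]
      decide
    · ring
    · rw [hrr]; ring
    · apply hT
      right
      refine ⟨?_, ⟨k * p ^ 2, by ring⟩⟩
      have e : (8 * k ^ 2 * p ^ 3 * q : ℤ) = 8 * (k ^ 2 * p ^ 3 * q) := by ring
      rw [e]
      exact mod16 (((hk.pow).mul oddp.pow).mul oddq)
  · subst hk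
    refine core hN hC _ _ (-(4 * p ^ 2 * q * r)) (-(4 * p ^ 3 * q ^ 2 * r ^ 3)) p hp ?_ ?_ ?_ ?_ ?_
      (hS1 p q r hA) (hS2 p q r hA)
    · have e : (2 * p ^ 3 * q ^ 3 * r ^ 2 : ℤ) = (p : ℤ) ^ 3 * (2 * q ^ 3 * r ^ 2) := by ring
      rw [e, vodd3 hp (nmul _ _ (nmul _ _ np2 (npow _ _ npq)) (npow _ _ npr))]
      decide
    · have e : (-(4 * p ^ 3 * q ^ 2 * r ^ 3) : ℤ) = (p : ℤ) ^ 3 * (-(4 * q ^ 2 * r ^ 3)) := by ring
      rw [e, vodd3 hp (nneg _ (nmul _ _ (nmul _ _ np4 (npow _ _ npq)) (npow _ _ npr)))]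
      decide
    · ring
    · rw [hrr]; ring
    · apply hT
      left
      have e : (2 * p ^ 3 * q ^ 3 * r ^ 2 : ℤ) = 2 * (p ^ 3 * q ^ 3 * r ^ 2) := by ring
      rw [e]
      exact mod4 (((oddp.pow).mul oddq.pow).mul oddr.pow)

end Pool.Agent.G02.H82
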